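import Pool.Agent.X109.LT.A

/-!
# Left multiplication orbits of the weighted cyclic shifts
-/

set_option autoImplicit false

open Filter Topology

namespace Pool.Agent.X109.LT

variable {𝕜 : Type} [RCLike 𝕜]

theorem separable_X : TopologicalSpace.SeparableSpace (X 𝕜) := by
  classical
  rw [← TopologicalSpace.isSeparable_univ_iff]
  have h1 : TopologicalSpace.IsSeparable
      (Submodule.span 𝕜 (Set.range (fun i : I => (lp.single 2 i (1 : 𝕜) : X 𝕜))) : Set (X 𝕜)) := by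
    apply TopologicalSpace.IsSeparable.span
    exact (Set.countable_range _).isSeparable
  refine h1.closure.mono ?_
  intro x _
  have h := lp.hasSum_single (p := 2) (by norm_num) x
  refine mem_closure_of_tendsto h (Eventually.of_forall fun s => ?_)
  apply Submodule.sum_mem
  intro i _
  have : (lp.single 2 i (x i) : X 𝕜) = (x i) • (lp.single 2 i (1 : 𝕜) : X 𝕜) := by
    rw [← lp.single_smul, smul_eq_mul, mul_one]
  rw [this]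
  exact Submodule.smul_mem _ _ (Submodule.subset_span ⟨i, rfl⟩)

/-- `A r` inverts `Λ` up to the block `K` -/
def P (Λ : X 𝕜 →L[𝕜] X 𝕜) (K : ℕ) (r : ℤ) : Prop :=
  ∀ (x : X 𝕜) (i : I), i.1 ≤ K → A r (Λ x) i = x i

theorem P_congr {Λ : X 𝕜 →L[𝕜] X 𝕜} {K : ℕ} {r s : ℤ}
    (h : (r : ZMod (2 ^ K)) = (s : ZMod (2 ^ K))) (hr : P Λ K r) : P Λ K s := by
  intro x i hi
  rw [← hr x i hi, A_apply, A_apply]
  have h1 : (r : ZMod (2 ^ i.1)) = (s : ZMod (2 ^ i.1)) := by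
    rw [ZMod.intCast_eq_intCast_iff] at h ⊢
    apply h.of_dvd
    exact_mod_cast pow_dvd_pow 2 hi
  have : sh (-r) i = sh (-s) i := by
    rw [sh_apply, sh_apply]; push_cast; rw [h1]
  rw [this]

theorem exists_P {Λ : X 𝕜 →L[𝕜] X 𝕜} (K : ℕ)
    (h : ∀ (F : Finset (X 𝕜)) (ε : ℝ), 0 < ε → ∃ n : ℕ, 0 < n ∧
      ∀ x ∈ F, ‖((A 1 : X 𝕜 →L[𝕜] X 𝕜) ^ n) (Λ x) - x‖ < ε) :
    ∃ r : ℤ, P Λ K r := by
  classical
  by_contra hno
  push Not at hno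
  have h1 : ∀ r : ℕ, ∃ (x : X 𝕜) (i : I), i.1 ≤ K ∧ A (r : ℤ) (Λ x) i ≠ x i := by
    intro r
    have := hno (r : ℤ)
    unfold P at this
    push Not at this
    exact this
  choose x i hi hne using h1
  have hN : 0 < 2 ^ K := by positivity
  obtain ⟨r0, hr0, hmin⟩ := Finset.exists_min_image (Finset.range (2 ^ K))
    (fun r => ‖A (r : ℤ) (Λ (x r)) (i r) - x r (i r)‖) ⟨0, Finset.mem_range.2 hN⟩
  obtain ⟨n, _, hn⟩ := h ((Finset.range (2 ^ K)).image x)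
    ‖A (r0 : ℤ) (Λ (x r0)) (i r0) - x r0 (i r0)‖ (norm_pos_iff.2 (sub_ne_zero.2 (hne r0)))
  have hmem : n % 2 ^ K ∈ Finset.range (2 ^ K) := Finset.mem_range.2 (Nat.mod_lt _ hN)
  have h2 := hn (x (n % 2 ^ K)) (Finset.mem_image_of_mem _ hmem)
  have h3 := hmin _ hmem
  rw [A_pow] at h2
  have h4 : A (n : ℤ) (Λ (x (n % 2 ^ K))) (i (n % 2 ^ K)) =
      A ((n % 2 ^ K : ℕ) : ℤ) (Λ (x (n % 2 ^ K))) (i (n % 2 ^ K)) := by
    rw [A_apply, A_apply]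
    have h5 : (n : ZMod (2 ^ (i (n % 2 ^ K)).1)) = ((n % 2 ^ K : ℕ) : ZMod (2 ^ (i (n % 2 ^ K)).1)) := by
      rw [ZMod.natCast_eq_natCast_iff]
      have h6 : n ≡ n % 2 ^ K [MOD 2 ^ K] := (Nat.mod_modEq _ _).symm
      exact h6.of_dvd (pow_dvd_pow 2 (hi _))
    have h7 : sh (-(n : ℤ)) (i (n % 2 ^ K)) = sh (-((n % 2 ^ K : ℕ) : ℤ)) (i (n % 2 ^ K)) := by
      rw [sh_apply, sh_apply]
      have h8 : ((-(n : ℤ) : ℤ) : ZMod (2 ^ (i (n % 2 ^ K)).1)) =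
          ((-((n % 2 ^ K : ℕ) : ℤ) : ℤ) : ZMod (2 ^ (i (n % 2 ^ K)).1)) := by
        rw [Int.cast_neg, Int.cast_neg, Int.cast_natCast, Int.cast_natCast, h5]
      rw [h8]
    rw [h7]
  have h5 := lp.norm_apply_le_norm (p := 2) (by norm_num)
    (A (n : ℤ) (Λ (x (n % 2 ^ K))) - x (n % 2 ^ K)) (i (n % 2 ^ K))
  rw [lp.coeFn_sub, Pi.sub_apply, h4] at h5
  linarith

/-- the unit vector at `(k, 0)` -/
noncomputable def e (k : ℕ) : X 𝕜 := by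
  classical
  exact lp.single 2 (⟨k, 0⟩ : I) (1 : 𝕜)

theorem norm_e (k : ℕ) : ‖(e k : X 𝕜)‖ = 1 := by
  classical
  unfold e
  rw [lp.norm_single (by norm_num)]
  exact norm_one

theorem e_apply (k : ℕ) : (e k : X 𝕜) (⟨k, 0⟩ : I) = 1 := by
  classical
  unfold e
  rw [lp.single_apply_self]

theorem bound_of_P {Λ : X 𝕜 →L[𝕜] X 𝕜} {K : ℕ} {r : ℤ} (h : P Λ K r) :
    (d (r : ZMod (2 ^ K)) : ℝ) ≤ ‖Λ‖ := by
  have h1 := h (e K) ⟨K, 0⟩ le_rfl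
  rw [e_apply, A_apply] at h1
  have h2 := congrArg norm h1
  rw [norm_mul, norm_one, RCLike.norm_ofReal, abs_of_pos (div_pos (w_pos _) (w_pos _))] at h2
  have h3 : w (⟨K, 0⟩ : I) = 1 := by
    unfold w
    rw [d_zero]; simp
  have h4 : w (sh (-r) ⟨K, 0⟩) = 1 + (d (r : ZMod (2 ^ K)) : ℝ) := by
    unfold w
    rw [sh_apply]
    dsimp only
    rw [zero_add, Int.cast_neg, d_neg]
  rw [h3, h4] at h2
  have h5 : ‖Λ (e K) (sh (-r) ⟨K, 0⟩)‖ ≤ ‖Λ‖ := by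
    refine (lp.norm_apply_le_norm (p := 2) (by norm_num) _ _).trans ?_
    have := Λ.le_opNorm (e K)
    rwa [norm_e, mul_one] at this
  have h6 : (0 : ℝ) < 1 + (d (r : ZMod (2 ^ K)) : ℝ) := by positivity
  rw [div_mul_eq_mul_div, one_mul, div_eq_one_iff_eq h6.ne'] at h2
  linarith

theorem eq_A_of_closure {Λ : X 𝕜 →L[𝕜] X 𝕜}
    (h : ∀ (F : Finset (X 𝕜)) (ε : ℝ), 0 < ε → ∃ n : ℕ, 0 < n ∧
      ∀ x ∈ F, ‖((A 1 : X 𝕜 →L[𝕜] X 𝕜) ^ n) (Λ x) - x‖ < ε) :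
    ∃ z : ℤ, Λ = A (-z) := by
  -- the candidates are bounded
  have h1 : ∀ K : ℕ, ∃ z : ℤ, z.natAbs ≤ ⌊‖Λ‖⌋₊ ∧ P Λ K z := by
    intro K
    obtain ⟨r, hr⟩ := exists_P K h
    refine ⟨(r : ZMod (2 ^ K)).valMinAbs, ?_, P_congr (by rw [ZMod.coe_valMinAbs]) hr⟩
    exact Nat.le_floor (bound_of_P hr)
  have h2 : ∃ z : ℤ, ∀ K : ℕ, P Λ K z := by
    by_contra hno
    push Not at hno
    choose K hK using hno
    set B := ⌊‖Λ‖⌋₊
    obtain ⟨z, hz, hP⟩ := h1 ((Finset.Icc (-(B : ℤ)) B).sup K)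
    apply hK z
    intro x i hi
    apply hP x i
    refine hi.trans (Finset.le_sup (f := K) ?_)
    rw [Finset.mem_Icc]
    omega
  obtain ⟨z, hz⟩ := h2
  refine ⟨z, ?_⟩
  have h3 : ∀ x, A z (Λ x) = x := by
    intro x
    ext i
    exact hz i.1 x i le_rfl
  have h4 : (A (-z) : X 𝕜 →L[𝕜] X 𝕜) * A z = 1 := by
    rw [← A_add, neg_add_cancel, A_zero]
  ext1 x
  have h5 : (A (-z) : X 𝕜 →L[𝕜] X 𝕜) (A z (Λ x)) = Λ x := by
    have := congrArg (fun T : X 𝕜 →L[𝕜] X 𝕜 => T (Λ x)) h4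
    exact this
  rw [← h5, h3]

open Classical in
/-- the coordinates of the test vector -/
noncomputable def x0fn : I → 𝕜 := fun i => if i.2 = 0 then ((1 / 2 : ℝ) ^ i.1 : ℝ) else 0

theorem x0_mem : Memℓp (x0fn : I → 𝕜) 2 := by
  apply memℓp_gen
  have h2 : (2 : ENNReal).toReal = 2 := by norm_num
  rw [h2]
  have hinj : Function.Injective (fun k : ℕ => (⟨k, 0⟩ : I)) := by
    intro a b hab
    exact congrArg Sigma.fst hab
  rw [← hinj.summable_iff]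
  · have : (fun i : I => ‖(x0fn i : 𝕜)‖ ^ (2 : ℝ)) ∘ (fun k : ℕ => (⟨k, 0⟩ : I)) =
        fun k : ℕ => ((1 / 4 : ℝ)) ^ k := by
      funext k
      simp only [Function.comp, x0fn, if_true]
      rw [RCLike.norm_ofReal, abs_of_pos (by positivity)]
      rw [Real.rpow_two, ← pow_mul, mul_comm, pow_mul]
      norm_num
    rw [this]
    exact summable_geometric_of_lt_one (by norm_num) (by norm_num)
  · rintro ⟨k, i⟩ hi
    have : i ≠ 0 := by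
      rintro rfl
      exact hi ⟨k, rfl⟩
    simp [x0fn, this]

/-- the test vector -/
noncomputable def x0 : X 𝕜 := ⟨x0fn, x0_mem⟩

theorem x0_apply (i : I) : (x0 : X 𝕜) i = x0fn i := rfl

theorem far (l : ℕ) (hl : 0 < l) : 1 / 4 ≤ ‖A (l : ℤ) (x0 : X 𝕜) - x0‖ := by
  classical
  -- choose `k` with `2 l < 2 ^ k ≤ 4 l`
  obtain ⟨k, hk1, hk2⟩ : ∃ k : ℕ, 2 * l < 2 ^ k ∧ 2 ^ k ≤ 4 * l := by
    refine ⟨Nat.log 2 l + 2, ?_, ?_⟩
    · have := Nat.lt_pow_succ_log_self (b := 2) (by norm_num) l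
      rw [pow_succ] at this ⊢
      rw [pow_succ]
      omega
    · have := Nat.pow_log_le_self 2 hl.ne'
      rw [pow_succ, pow_succ]
      omega
  have hval : ((l : ℤ) : ZMod (2 ^ k)).valMinAbs = (l : ℤ) := by
    rw [ZMod.valMinAbs_spec]
    refine ⟨rfl, ?_⟩
    rw [Set.mem_Ioc]
    have : ((2 ^ k : ℕ) : ℤ) > 2 * l := by exact_mod_cast hk1
    constructor <;> push_cast at * <;> omega
  have hd : d ((l : ℤ) : ZMod (2 ^ k)) = l := by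
    unfold d
    rw [hval]
    simp
  have hne : ((l : ℤ) : ZMod (2 ^ k)) ≠ 0 := by
    intro h
    rw [h, d_zero] at hd
    omega
  refine le_trans ?_ (lp.norm_apply_le_norm (p := 2) (by norm_num) _
    (⟨k, ((l : ℤ) : ZMod (2 ^ k))⟩ : I))
  rw [lp.coeFn_sub, Pi.sub_apply, A_apply, x0_apply, x0_apply]
  have h1 : sh (-(l : ℤ)) (⟨k, ((l : ℤ) : ZMod (2 ^ k))⟩ : I) = ⟨k, 0⟩ := by
    rw [sh_apply]
    congr 1
    rw [Int.cast_neg, add_neg_cancel]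
  rw [h1]
  have h2 : (x0fn (⟨k, ((l : ℤ) : ZMod (2 ^ k))⟩ : I) : 𝕜) = 0 := by
    unfold x0fn
    rw [if_neg hne]
  have h3 : (x0fn (⟨k, 0⟩ : I) : 𝕜) = (((1 / 2 : ℝ) ^ k : ℝ) : 𝕜) := by
    unfold x0fn
    rw [if_pos rfl]
  rw [h2, h3, sub_zero, ← RCLike.ofReal_mul, RCLike.norm_ofReal,
    abs_of_pos (mul_pos (div_pos (w_pos _) (w_pos _)) (by positivity))]
  have h4 : w (⟨k, 0⟩ : I) = 1 := by
    unfold w
    rw [d_zero]; simp
  have h5 : w (⟨k, ((l : ℤ) : ZMod (2 ^ k))⟩ : I) = 1 + (l : ℝ) := by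
    unfold w
    dsimp only
    rw [hd]
  rw [h4, h5, div_one, one_div, one_div, inv_pow, ← div_eq_mul_inv, le_div_iff₀ (by positivity)]
  have h6 : ((2 : ℝ) ^ k) ≤ 4 * l := by exact_mod_cast hk2
  linarith

theorem not_closure (Λ : X 𝕜 →L[𝕜] X 𝕜) :
    ¬ ∀ m : ℕ, ∀ (F : Finset (X 𝕜)) (ε : ℝ), 0 < ε → ∃ n : ℕ, 0 < n ∧
      ∀ x ∈ F, ‖((A 1 : X 𝕜 →L[𝕜] X 𝕜) ^ n) (Λ x) - A (-(m : ℤ)) x‖ < ε := by
  intro h
  have h0 : ∀ (F : Finset (X 𝕜)) (ε : ℝ), 0 < ε → ∃ n : ℕ, 0 < n ∧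
      ∀ x ∈ F, ‖((A 1 : X 𝕜 →L[𝕜] X 𝕜) ^ n) (Λ x) - x‖ < ε := by
    intro F ε hε
    obtain ⟨n, hn, hF⟩ := h 0 F ε hε
    refine ⟨n, hn, fun x hx => ?_⟩
    have := hF x hx
    rw [Nat.cast_zero, neg_zero, A_zero] at this
    exact this
  obtain ⟨z, rfl⟩ := eq_A_of_closure h0
  obtain ⟨n, hn, hF⟩ := h z.natAbs {A (z.natAbs : ℤ) x0} (1 / 4) (by norm_num)
  have h1 := hF _ (Finset.mem_singleton_self _)
  have comp : ∀ (a b : ℤ) (x : X 𝕜), A a (A b x) = A (a + b) x := by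
    intro a b x
    rw [A_add]
    rfl
  rw [A_pow, comp, comp, comp, neg_add_cancel, A_zero] at h1
  obtain ⟨l, hl⟩ : ∃ l : ℕ, (n : ℤ) + -z + (z.natAbs : ℤ) = (l : ℤ) := by
    refine ⟨((n : ℤ) + -z + (z.natAbs : ℤ)).toNat, ?_⟩
    rw [Int.toNat_of_nonneg]
    omega
  have hl0 : 0 < l := by omega
  rw [hl] at h1
  have := far (𝕜 := 𝕜) l hl0
  have h2 : ‖A (l : ℤ) (x0 : X 𝕜) - x0‖ < 1 / 4 := h1
  linarith

end Pool.Agent.X109.LT
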