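import Mathlib

/-!
# Weighted cyclic shifts on `ℓ²(Σ k, ZMod (2 ^ k))`
-/

set_option autoImplicit false

open Filter Topology

namespace Pool.Agent.X109.LT

/-- the index set: a disjoint union of cyclic groups of order `2 ^ k` -/
abbrev I : Type := Σ k : ℕ, ZMod (2 ^ k)

/-- distance to `0` in the cyclic group -/
def d {k : ℕ} (i : ZMod (2 ^ k)) : ℕ := i.valMinAbs.natAbs

theorem d_zero {k : ℕ} : d (0 : ZMod (2 ^ k)) = 0 := by simp [d]

theorem d_neg {k : ℕ} (i : ZMod (2 ^ k)) : d (-i) = d i := by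
  unfold d
  exact ZMod.natAbs_valMinAbs_neg i

theorem d_add_le {k : ℕ} (i j : ZMod (2 ^ k)) : d (i + j) ≤ d i + d j := by
  unfold d
  exact (ZMod.natAbs_valMinAbs_add_le i j).trans (Int.natAbs_add_le _ _)

theorem valMinAbs_intCast_le {n : ℕ} [NeZero n] (z : ℤ) :
    (z : ZMod n).valMinAbs.natAbs ≤ z.natAbs := by
  by_contra h
  rw [not_le] at h
  have h1 := ZMod.natAbs_valMinAbs_le (z : ZMod n)
  have : (z : ZMod n).valMinAbs = z := by
    rw [ZMod.valMinAbs_spec]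
    refine ⟨rfl, ?_⟩
    rw [Set.mem_Ioc]
    constructor <;> omega
  rw [this] at h
  exact lt_irrefl _ h

theorem d_intCast_le {k : ℕ} (z : ℤ) : d (z : ZMod (2 ^ k)) ≤ z.natAbs :=
  valMinAbs_intCast_le z

/-- the weight -/
noncomputable def w (i : I) : ℝ := 1 + (d i.2 : ℝ)

theorem w_pos (i : I) : 0 < w i := by unfold w; positivity

/-- translation by an integer in each cyclic group -/
def sh (z : ℤ) : I ≃ I where
  toFun i := ⟨i.1, i.2 + (z : ZMod (2 ^ i.1))⟩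
  invFun i := ⟨i.1, i.2 - (z : ZMod (2 ^ i.1))⟩
  left_inv i := by simp
  right_inv i := by simp

theorem sh_apply (z : ℤ) (i : I) : sh z i = ⟨i.1, i.2 + (z : ZMod (2 ^ i.1))⟩ := rfl

theorem sh_sh (a b : ℤ) (i : I) : sh a (sh b i) = sh (a + b) i := by
  simp only [sh_apply]
  congr 1
  push_cast
  ring

theorem sh_zero (i : I) : sh 0 i = i := by simp [sh_apply]

theorem w_sh_le (z : ℤ) (i : I) : w i ≤ (1 + (z.natAbs : ℝ)) * w (sh z i) := by
  have h1 : d i.2 ≤ d (i.2 + (z : ZMod (2 ^ i.1))) + z.natAbs := by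
    have := d_add_le (i.2 + (z : ZMod (2 ^ i.1))) (-(z : ZMod (2 ^ i.1)))
    rw [add_neg_cancel_right, d_neg] at this
    exact this.trans (Nat.add_le_add_left (d_intCast_le z) _)
  have h2 : (d i.2 : ℝ) ≤ d (i.2 + (z : ZMod (2 ^ i.1))) + z.natAbs := by exact_mod_cast h1
  unfold w
  rw [sh_apply]
  dsimp only
  have h3 : (0 : ℝ) ≤ d (i.2 + (z : ZMod (2 ^ i.1))) := by positivity
  have h4 : (0 : ℝ) ≤ (z.natAbs : ℝ) := by positivity
  nlinarith

variable (𝕜 : Type) [RCLike 𝕜]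

/-- the Hilbert space -/
abbrev X : Type := lp (fun _ : I => 𝕜) 2

variable {𝕜}

/-- the function underlying the weighted shift -/
noncomputable def fn (z : ℤ) (x : I → 𝕜) : I → 𝕜 :=
  fun i => ((w i / w (sh (-z) i) : ℝ) : 𝕜) * x (sh (-z) i)

theorem norm_fn_le (z : ℤ) (x : I → 𝕜) (i : I) :
    ‖fn z x i‖ ≤ (1 + (z.natAbs : ℝ)) * ‖x (sh (-z) i)‖ := by
  unfold fn
  rw [norm_mul, RCLike.norm_ofReal, abs_of_pos (div_pos (w_pos _) (w_pos _))]
  apply mul_le_mul_of_nonneg_right _ (norm_nonneg _)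
  rw [div_le_iff₀ (w_pos _)]
  have := w_sh_le (-z) i
  rwa [Int.natAbs_neg] at this

theorem sum_fn_le (z : ℤ) (x : X 𝕜) (s : Finset I) :
    ∑ i ∈ s, ‖fn z (x : I → 𝕜) i‖ ^ (2 : ENNReal).toReal ≤
      ((1 + (z.natAbs : ℝ)) * ‖x‖) ^ (2 : ENNReal).toReal := by
  have h2 : (2 : ENNReal).toReal = 2 := by norm_num
  have h0 : (0 : ℝ) ≤ 1 + (z.natAbs : ℝ) := by positivity
  calc ∑ i ∈ s, ‖fn z (x : I → 𝕜) i‖ ^ (2 : ENNReal).toReal
      ≤ ∑ i ∈ s, ((1 + (z.natAbs : ℝ)) ^ (2 : ENNReal).toReal * ‖x (sh (-z) i)‖ ^ (2 : ENNReal).toReal) := by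
        apply Finset.sum_le_sum
        intro i _
        rw [← Real.mul_rpow h0 (norm_nonneg _)]
        apply Real.rpow_le_rpow (norm_nonneg _) (norm_fn_le z _ i)
        rw [h2]; norm_num
    _ = (1 + (z.natAbs : ℝ)) ^ (2 : ENNReal).toReal *
          ∑ i ∈ s.map (sh (-z)).toEmbedding, ‖x i‖ ^ (2 : ENNReal).toReal := by
        rw [← Finset.mul_sum, Finset.sum_map]
        rfl
    _ ≤ (1 + (z.natAbs : ℝ)) ^ (2 : ENNReal).toReal * ‖x‖ ^ (2 : ENNReal).toReal := by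
        apply mul_le_mul_of_nonneg_left _ (by positivity)
        exact lp.sum_rpow_le_norm_rpow (by norm_num) x _
    _ = _ := by rw [Real.mul_rpow h0 (norm_nonneg _)]

/-- the weighted shift by `z` -/
noncomputable def A (z : ℤ) : X 𝕜 →L[𝕜] X 𝕜 :=
  LinearMap.mkContinuous
    { toFun := fun x => ⟨fn z (x : I → 𝕜), memℓp_gen' (sum_fn_le z x)⟩
      map_add' := by
        intro x y
        ext i
        simp only [lp.coeFn_add, Pi.add_apply, fn]
        ring
      map_smul' := by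
        intro c x
        ext i
        simp only [lp.coeFn_smul, Pi.smul_apply, fn, smul_eq_mul, RingHom.id_apply]
        ring }
    (1 + (z.natAbs : ℝ))
    (fun x => lp.norm_le_of_forall_sum_le (by norm_num) (by positivity) (sum_fn_le z x))

theorem A_apply (z : ℤ) (x : X 𝕜) (i : I) :
    A z x i = ((w i / w (sh (-z) i) : ℝ) : 𝕜) * x (sh (-z) i) := rfl

theorem A_zero : (A 0 : X 𝕜 →L[𝕜] X 𝕜) = 1 := by
  ext x i
  rw [A_apply, neg_zero, sh_zero, div_self (w_pos i).ne']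
  simp

theorem A_add (a b : ℤ) : (A (a + b) : X 𝕜 →L[𝕜] X 𝕜) = A a * A b := by
  ext x i
  show A (a + b) x i = A a (A b x) i
  rw [A_apply, A_apply, A_apply, sh_sh, show -(a + b) = -b + -a by ring, ← mul_assoc,
    ← RCLike.ofReal_mul]
  congr 2
  have h1 := (w_pos (sh (-a) i)).ne'
  field_simp

theorem A_pow (n : ℕ) : (A 1 : X 𝕜 →L[𝕜] X 𝕜) ^ n = A (n : ℤ) := by
  induction n with
  | zero => rw [pow_zero, Nat.cast_zero, A_zero]
  | succ n ih => rw [pow_succ, ih, ← A_add]; push_cast; rfl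

/-- finitely supported vectors -/
def D (𝕜 : Type) [RCLike 𝕜] : Set (X 𝕜) := {x | {i | x i ≠ 0}.Finite}

theorem dense_D : Dense (D 𝕜) := by
  classical
  intro x
  have h := lp.hasSum_single (p := 2) (by norm_num) x
  refine mem_closure_of_tendsto h (Eventually.of_forall fun s => ?_)
  apply (s.finite_toSet).subset
  intro i hi
  by_contra hs
  apply hi
  rw [lp.coeFn_sum, Finset.sum_apply]
  apply Finset.sum_eq_zero
  intro j hj
  rw [lp.single_apply_ne]
  rintro rfl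
  exact hs hj

theorem A_eventually {x : X 𝕜} (hx : x ∈ D 𝕜) (z : ℤ) (u : ℕ → ℤ)
    (hu : ∀ k : ℕ, ∀ᶠ n in atTop, ((u n : ℤ) : ZMod (2 ^ k)) = (z : ZMod (2 ^ k))) :
    ∀ᶠ n in atTop, A (u n) x = A z x := by
  have hfin : {i | x i ≠ 0}.Finite := hx
  have h1 : ∀ᶠ n in atTop, ∀ i ∈ hfin.toFinset, ((u n : ℤ) : ZMod (2 ^ i.1)) = (z : ZMod (2 ^ i.1)) := by
    rw [Filter.eventually_all_finset]
    intro i _
    exact hu i.1
  filter_upwards [h1] with n hn
  ext i
  rw [A_apply, A_apply]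
  by_cases hc : ((u n : ℤ) : ZMod (2 ^ i.1)) = (z : ZMod (2 ^ i.1))
  · have : sh (-(u n)) i = sh (-z) i := by
      rw [sh_apply, sh_apply]; push_cast; rw [hc]
    rw [this]
  · have key : ∀ v : ℤ, x (sh v i) = 0 := by
      intro v
      by_contra hne
      apply hc
      exact hn (sh v i) (by rw [Set.Finite.mem_toFinset]; exact hne)
    rw [key, key, mul_zero, mul_zero]

theorem pow_tendsto_zero_mod (k : ℕ) : ∀ᶠ n in atTop, ((2 ^ n : ℕ) : ZMod (2 ^ k)) = 0 := by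
  filter_upwards [eventually_ge_atTop k] with n hn
  rw [ZMod.natCast_eq_zero_iff]
  exact pow_dvd_pow 2 hn

end Pool.Agent.X109.LT
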